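import Pool.Agent.H25.MF.Targets

/-!
# MP_118735_nt, row HA: combinations satisfy the hypotheses of the machine (helper10)
-/

set_option autoImplicit false

open Complex MeasureTheory Filter Topology

namespace Pool.Agent.H10.MF

open Pool.Agent.H25.MF

theorem dl_bound (F : ℂ → ℂ) (hF : Differentiable ℂ F) (w : ℂ) (T : ℝ) :
    ∃ B : ℝ, 0 ≤ B ∧ ∀ z : ℂ, |z.re| ≤ 1 → |z.im| ≤ T → z ≠ w →
      ‖(F z - F w) / (z - w)‖ ≤ B := by
  have hc : Continuous (dslope F w) := by
    rw [continuous_iff_continuousAt]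
    intro z
    by_cases hz : z = w
    · subst hz
      exact continuousAt_dslope_same.2 (hF _)
    · exact (continuousAt_dslope_of_ne hz).2 (hF z).continuousAt
  have hK : IsCompact (Set.Icc (-1 : ℝ) 1 ×ℂ Set.Icc (-T) T) := isCompact_Icc.reProdIm isCompact_Icc
  obtain ⟨B, hB⟩ := hK.exists_bound_of_continuousOn hc.continuousOn
  refine ⟨max B 0, le_max_right _ _, fun z h1 h2 hz => ?_⟩
  have h3 : (F z - F w) / (z - w) = dslope F w z := by
    rw [dslope_of_ne F hz, slope_def_field]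
  rw [h3]
  refine (hB z ?_).trans (le_max_left _ _)
  rw [Complex.mem_reProdIm]
  exact ⟨abs_le.1 h1, abs_le.1 h2⟩

/-- HA: combinations satisfy the hypotheses of the machine -/
theorem pf_HA (hTC : T_TC) (hDO : T_DO) : T_HA := by
  intro J c hJ g H hyp
  obtain ⟨hgr, hplus, hminus⟩ := hTC J c hJ g H hyp.gr
  obtain ⟨hD, hJL, C', hC'⟩ := hDO.2 J c hJ g hyp.gr
  have hC'0 : 0 ≤ C' := (norm_nonneg _).trans (hC' 0 (by simp)).1
  refine ⟨hgr, ?_, ?_, ?_, ?_, ?_⟩
  · intro z h0 h1
    exact ((hD z).mul (hyp.df z h0 h1)).sub (hJL z)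
  · obtain ⟨C, k, hb⟩ := hyp.bd
    refine ⟨C' * |C| + C', k, fun z h0 h1 => ?_⟩
    have h2 := hb z h0 h1
    obtain ⟨h3, h4⟩ := hC' z (by linarith)
    have hq : 1 ≤ (1 + |z.im|) ^ k := one_le_pow₀ (by linarith [abs_nonneg z.im])
    have hq2 : 1 ≤ (1 + |z.im|) ^ k / |z.re| := by
      rw [le_div_iff₀ h0]
      linarith
    have h5 : ‖H z‖ ≤ |C| * ((1 + |z.im|) ^ k / |z.re|) := by
      refine h2.trans ?_
      rw [mul_div_assoc]
      exact mul_le_mul_of_nonneg_right (le_abs_self C) (by linarith)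
    have h6 : ‖DL J c z * H z‖ ≤ C' * (|C| * ((1 + |z.im|) ^ k / |z.re|)) := by
      rw [norm_mul]
      exact mul_le_mul h3 h5 (norm_nonneg _) hC'0
    have h7 : C' ≤ C' * ((1 + |z.im|) ^ k / |z.re|) := le_mul_of_one_le_right hC'0 hq2
    have h8 := norm_sub_le (DL J c z * H z) (JL J c g z)
    unfold HL
    rw [mul_div_assoc]
    calc _ ≤ C' * (|C| * ((1 + |z.im|) ^ k / |z.re|)) + C' * ((1 + |z.im|) ^ k / |z.re|) := by
          linarith
      _ = _ := by ring
  · intro t
    refine hplus _ ?_ (hyp.plus t)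
    simp
    norm_num
  · intro t
    refine hminus _ ?_ (hyp.minus t)
    simp
    norm_num
  · intro T
    obtain ⟨S, a, δ, C, hδ, hS, hcont⟩ := hyp.lo T
    choose B hB0 hB using fun w : ℂ => dl_bound (DL J c) hD w T
    refine ⟨S, fun γ => DL J c (γ * I) * a γ, min δ 1,
      C' * |C| + ∑ γ ∈ S, ‖a γ‖ * B (γ * I) + C', lt_min hδ one_pos, ?_, ?_⟩
    · intro z h0 h1 hT
      have h2 := hS z h0 (lt_of_lt_of_le h1 (min_le_left _ _)) hT
      have h3 : |z.re| ≤ 1 := (lt_of_lt_of_le h1 (min_le_right _ _)).le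
      obtain ⟨h4, h5⟩ := hC' z h3
      have hre : z.re ≠ 0 := abs_pos.1 h0
      have h6 : HL J c g H z - ∑ γ ∈ S, DL J c (γ * I) * a γ / (z - γ * I) =
          DL J c z * (H z - ∑ γ ∈ S, a γ / (z - γ * I)) +
          ∑ γ ∈ S, a γ * ((DL J c z - DL J c (γ * I)) / (z - γ * I)) - JL J c g z := by
        unfold HL
        have h7 : ∑ γ ∈ S, a γ * ((DL J c z - DL J c (γ * I)) / (z - γ * I)) =
            DL J c z * ∑ γ ∈ S, a γ / (z - γ * I) -
              ∑ γ ∈ S, DL J c (γ * I) * a γ / (z - γ * I) := by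
          rw [Finset.mul_sum, ← Finset.sum_sub_distrib]
          exact Finset.sum_congr rfl fun γ _ => by ring
        rw [h7]
        ring
      rw [h6]
      refine (norm_sub_le _ _).trans (add_le_add ((norm_add_le _ _).trans (add_le_add ?_ ?_)) h5)
      · rw [norm_mul]
        exact mul_le_mul h4 (h2.trans (le_abs_self C)) (norm_nonneg _) hC'0
      · refine (norm_sum_le _ _).trans (Finset.sum_le_sum fun γ _ => ?_)
        rw [norm_mul]
        refine mul_le_mul_of_nonneg_left (hB (γ * I) z h3 hT ?_) (norm_nonneg _)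
        intro h
        apply hre
        rw [h]
        simp
    · intro t ht htS
      exact ((hD _).continuousAt.mul (hcont t ht htS)).sub (hJL _).continuousAt

end Pool.Agent.H10.MF
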